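import Pool.Agent.H78.Cfp

open Pool.Agent.H78.Cfp

theorem Pool.Agent.Results.MP_6fb3b3_lc.Exact.result (N : ℕ) (hN : 2 ≤ N) :
    IsLeast {c : ℕ | ∃ P : Fin N → Equiv.Perm (Fin N), IsFast P ∧ cost P = c} (4 * N - 6) :=
  main N hN
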